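import Pool.Agent.H474.MS.Stm

/-!
# Project MS (helper474): L9
-/

set_option autoImplicit false

open MeasureTheory Filter Topology Set

namespace Pool.Agent.H337.MS.L9

open Pool.Agent.H474.MS

lemma two_mul_one_sub_cos_le (x : ℝ) : 2 * (1 - Real.cos x) ≤ x ^ 2 := by
  have h := Real.one_sub_sq_div_two_le_cos (x := x)
  linarith

lemma summable_low {ι : Type} {w g : ι → ℝ} (hd : Dat w g) (T : ℝ) :
    Summable (fun i => if g i ≤ T then w i * g i ^ 2 else 0) := by
  refine Summable.of_nonneg_of_le (fun i => ?_) (fun i => ?_) (hd.ws.mul_right (T ^ 2))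
  · split_ifs
    · exact mul_nonneg (hd.w0 i) (sq_nonneg _)
    · exact le_refl 0
  · split_ifs with h
    · exact mul_le_mul_of_nonneg_left (pow_le_pow_left₀ (hd.g0 i) h 2) (hd.w0 i)
    · exact mul_nonneg (hd.w0 i) (sq_nonneg _)

lemma summable_high {ι : Type} {w g : ι → ℝ} (hd : Dat w g) (T : ℝ) :
    Summable (fun i => if T < g i then w i else 0) := by
  refine Summable.of_nonneg_of_le (fun i => ?_) (fun i => ?_) hd.ws
  · split_ifs
    · exact hd.w0 i
    · exact le_refl 0
  · split_ifs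
    · exact le_refl _
    · exact hd.w0 i

lemma summable_cos {ι : Type} {w g : ι → ℝ} (hd : Dat w g) (h : ℝ) :
    Summable (fun i => w i * (2 * (1 - Real.cos (g i * h)))) := by
  refine Summable.of_nonneg_of_le (fun i => ?_) (fun i => ?_) (hd.ws.mul_right 4)
  · have h1 := Real.cos_le_one (g i * h)
    exact mul_nonneg (hd.w0 i) (by linarith)
  · have h1 := Real.neg_one_le_cos (g i * h)
    exact mul_le_mul_of_nonneg_left (by linarith) (hd.w0 i)

lemma key {ι : Type} {w g : ι → ℝ} (hd : Dat w g) {h T : ℝ} :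
    SS w g h ≤ h ^ 2 * AA w g T + 4 * RR w g T := by
  have hs1 := (summable_low hd T).mul_left (h ^ 2)
  have hs2 := (summable_high hd T).mul_left 4
  have e : h ^ 2 * AA w g T + 4 * RR w g T = ∑' i, (h ^ 2 * (if g i ≤ T then w i * g i ^ 2 else 0)
      + 4 * (if T < g i then w i else 0)) := by
    rw [hs1.tsum_add hs2, tsum_mul_left, tsum_mul_left]
    rfl
  rw [e, SS]
  refine Summable.tsum_le_tsum (fun i => ?_) (summable_cos hd h) (hs1.add hs2)
  by_cases hi : g i ≤ T
  · rw [if_pos hi, if_neg (not_lt.2 hi), mul_zero, add_zero]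
    have h1 := mul_le_mul_of_nonneg_left (two_mul_one_sub_cos_le (g i * h)) (hd.w0 i)
    calc w i * (2 * (1 - Real.cos (g i * h))) ≤ w i * (g i * h) ^ 2 := h1
      _ = h ^ 2 * (w i * g i ^ 2) := by ring
  · rw [if_neg hi, if_pos (not_le.1 hi), mul_zero, zero_add]
    have h1 := Real.neg_one_le_cos (g i * h)
    have h2 : w i * (2 * (1 - Real.cos (g i * h))) ≤ w i * 4 :=
      mul_le_mul_of_nonneg_left (by linarith) (hd.w0 i)
    linarith

/-- L9 -/
theorem t_L9 (h1b : Pool.Agent.H474.MS.S_L1b) : Pool.Agent.H474.MS.S_L9 := by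
  intro ι _ w g hd C hC
  refine ⟨9 * C, fun h hh hh1 => ?_⟩
  have hT : (1 : ℝ) ≤ 1 / h := by
    rw [le_div_iff₀ hh]
    linarith
  have h1 := hC (1 / h) hT
  have h2 := h1b ι w g hd C hC (1 / h) hT
  have h3 := key hd (h := h) (T := 1 / h)
  have h4 : h ^ 2 * AA w g (1 / h) ≤ h ^ 2 * (C * (1 / h)) :=
    mul_le_mul_of_nonneg_left h1 (sq_nonneg h)
  have h5 : h ^ 2 * (C * (1 / h)) = C * h := by
    field_simp
  have h6 : 2 * C / (1 / h) = 2 * C * h := by
    field_simp
  rw [h6] at h2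
  linarith

end Pool.Agent.H337.MS.L9
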